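import Pool.Agent.W763.PB.Stm

/-! Project PB, part TOWER: the tower of levels by recursion. -/

set_option autoImplicit false
open MeasureTheory Filter Topology
open scoped InnerProductSpace BoundedContinuousFunction

namespace Pool.Agent.W392.PB.Tower

open Pool.Agent.W763.PB

noncomputable section

/-- bundled levels -/
structure Lv (k : ℝ) (m : ℕ) where
  H : Type
  i1 : NormedAddCommGroup H
  i2 : InnerProductSpace ℂ H
  i3 : CompleteSpace H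
  U : H ≃ₗᵢ[ℂ] H
  D : H →L[ℂ] H
  prop : LevP k m U D

attribute [instance] Lv.i1 Lv.i2 Lv.i3

theorem succ_exists (hS : S_STEP) (k : ℝ) (b : ℕ) (hk : 2 ≤ k) (hb : 16 * k ^ 2 ≤ b)
    (hb1 : 1 ≤ b) (l : ℕ) (A : Lv k (b ^ l)) :
    ∃ B : Lv k (b ^ (l + 1)), ∃ J : A.H →ₗᵢ[ℂ] B.H, StepP k b (b ^ l) A.U A.D B.U B.D J := by
  obtain ⟨H', h1, h2, h3, U', D', J, hP⟩ :=
    hS k b (b ^ l) hk hb (Nat.one_le_pow _ _ hb1) A.H A.U A.D A.prop
  have hper := hP.per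
  rw [← pow_succ'] at hper
  exact ⟨⟨H', h1, h2, h3, U', D', ⟨hper, hP.sa, hP.lo, hP.up⟩⟩, J, hP⟩

/-- the base level -/
def base (k : ℝ) (hk : 2 ≤ k) : Lv k 1 where
  H := ℂ
  i1 := inferInstance
  i2 := inferInstance
  i3 := inferInstance
  U := 1
  D := ContinuousLinearMap.id ℂ ℂ
  prop := by
    refine ⟨by simp, fun x y => rfl, fun x => le_refl _, fun x => ?_⟩
    have h1 : (1 : ℝ) ≤ Real.sqrt k := by
      rw [Real.one_le_sqrt]; linarith
    have h2 : ‖(ContinuousLinearMap.id ℂ ℂ) x‖ = ‖x‖ := rfl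
    rw [h2]
    nlinarith [norm_nonneg x]

/-- the sequence of levels -/
def sq (hS : S_STEP) (k : ℝ) (b : ℕ) (hk : 2 ≤ k) (hb : 16 * k ^ 2 ≤ b) (hb1 : 1 ≤ b) :
    (l : ℕ) → Lv k (b ^ l)
  | 0 => base k hk
  | l + 1 => Classical.choose (succ_exists hS k b hk hb hb1 l (sq hS k b hk hb hb1 l))

theorem sq_spec (hS : S_STEP) (k : ℝ) (b : ℕ) (hk : 2 ≤ k) (hb : 16 * k ^ 2 ≤ b) (hb1 : 1 ≤ b)
    (l : ℕ) : ∃ J : (sq hS k b hk hb hb1 l).H →ₗᵢ[ℂ] (sq hS k b hk hb hb1 (l + 1)).H,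
      StepP k b (b ^ l) (sq hS k b hk hb hb1 l).U (sq hS k b hk hb hb1 l).D
        (sq hS k b hk hb hb1 (l + 1)).U (sq hS k b hk hb hb1 (l + 1)).D J :=
  Classical.choose_spec (succ_exists hS k b hk hb hb1 l (sq hS k b hk hb hb1 l))

theorem tower : S_STEP → S_TOWER := by
  intro hS k b hk hb
  have hb1 : 1 ≤ b := by
    have h1 : (1 : ℝ) ≤ b := by nlinarith
    exact_mod_cast h1
  have hJ := sq_spec hS k b hk hb hb1
  choose J hJ using hJ
  refine ⟨fun l => (sq hS k b hk hb hb1 l).H, fun l => (sq hS k b hk hb hb1 l).i1,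
    fun l => (sq hS k b hk hb hb1 l).i2, fun l => (sq hS k b hk hb hb1 l).i3,
    fun l => (sq hS k b hk hb hb1 l).U, fun l => (sq hS k b hk hb hb1 l).D, J,
    fun l => (sq hS k b hk hb hb1 l).prop, hJ, ?_, ?_⟩
  · intro x
    rfl
  · exact ⟨(1 : ℂ), one_ne_zero (α := ℂ)⟩

end

end Pool.Agent.W392.PB.Tower
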